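import Pool.Agent.Lib.MP_0a5adf_nt.EXR.Base
import Pool.Agent.Lib.MP_0a5adf_nt.EXP.H72.Class

/-!
# CLASSG: one class and one `κ`, for all parameters
-/

set_option autoImplicit false

namespace Pool.Agent.Lib.MP_0a5adf_nt.EXR.H72

open Finset Pool.Agent.Lib.MP_0a5adf_nt.EXP Pool.Agent.Lib.MP_0a5adf_nt.EXR
open Pool.Agent.Lib.MP_0a5adf_nt.EXP.H72 (sum_lt sum_ge dvd_of_eq)

/-- the bookkeeping identity for a block with two kinds of letters -/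
lemma block_identityG {pa pb a a' b b' x y : ℝ} (ha : a ≠ 0) (ha' : a' ≠ 0) (hb : b ≠ 0)
    (hb' : b' ≠ 0) (j k j2 k2 : ℕ) :
    (2 ^ (j + k) * 3 ^ j2 / 2 ^ (j + k + j2 + k2)) * (pa ^ (j + k) * pb ^ (j2 + k2) /
      (a ^ j * a' ^ k * b ^ j2 * b' ^ k2) ^ 4) * (x ^ (j + j2) * y ^ (k + k2)) =
    (pa * x / a ^ 4) ^ j * (pa * y / a' ^ 4) ^ k *
      (pb * (x * (3 / 2)) / b ^ 4) ^ j2 * (pb * (y * (1 / 2)) / b' ^ 4) ^ k2 := by
  simp only [div_pow, mul_pow, ← pow_mul, pow_add, one_pow]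
  field_simp
  ring

lemma rpow_letters (j k : ℕ) (s : ℝ) :
    ((3 : ℝ) ^ j / 2 ^ (j + k)) ^ s = ((3 / 2 : ℝ) ^ s) ^ j * ((1 / 2 : ℝ) ^ s) ^ k := by
  have h1 : (3 : ℝ) ^ j / 2 ^ (j + k) = (3 / 2) ^ j * (1 / 2) ^ k := by
    rw [div_pow, div_pow, pow_add, one_pow]
    field_simp
  rw [h1, Real.mul_rpow (by positivity) (by positivity), ← Real.rpow_natCast (3 / 2) j,
    ← Real.rpow_natCast (1 / 2) k, ← Real.rpow_natCast ((3 / 2) ^ s) j,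
    ← Real.rpow_natCast ((1 / 2) ^ s) k, ← Real.rpow_mul (by norm_num),
    ← Real.rpow_mul (by norm_num), ← Real.rpow_mul (by norm_num), ← Real.rpow_mul (by norm_num),
    mul_comm (j : ℝ) s, mul_comm (k : ℝ) s]

/-- the tree bound of a block -/
noncomputable def TBG (a b : ℝ) (m n j j2 : ℕ) : ℝ :=
  ((1 + (1 - 2 * a) ^ 4) / 2) ^ n * ((1 + (1 - 2 * b) ^ 4) / 2) ^ (m - n) /
    (a ^ j * (1 - a) ^ (n - j) * b ^ j2 * (1 - b) ^ (m - n - j2)) ^ 4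

lemma TBG_nonneg (a b : ℝ) (m n j j2 : ℕ) : 0 ≤ TBG a b m n j j2 := by
  unfold TBG
  have h1 : 0 ≤ (1 + (1 - 2 * a) ^ 4) / 2 := by positivity
  have h2 : 0 ≤ (1 + (1 - 2 * b) ^ 4) / 2 := by positivity
  positivity

lemma block_leG (hL : LetterStatement) {lam a b : ℝ} (h0 : 0 ≤ lam) (h1 : lam ≤ 1 / 3)
    (ha : a = (3 : ℝ) ^ lam / (1 + (3 : ℝ) ^ lam))
    (hb : b = (3 : ℝ) ^ (lam + 1 / 4) / (1 + (3 : ℝ) ^ (lam + 1 / 4)))
    (ha0 : 0 < a) (ha1 : a < 1) (hb0 : 0 < b) (hb1 : b < 1)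
    {m n j j2 : ℕ} (hn : n ≤ m) (hj : j ≤ n) (hj2 : j2 ≤ m - n) :
    (2 ^ n * 3 ^ j2 / 2 ^ m) * TBG a b m n j j2 * ((3 : ℝ) ^ (j + j2) / 2 ^ m) ^ (4 * lam) ≤
      Psi lam ^ m := by
  obtain ⟨k, rfl⟩ := Nat.exists_eq_add_of_le hj
  obtain ⟨d, rfl⟩ := Nat.exists_eq_add_of_le hn
  have hd : j + k + d - (j + k) = d := by omega
  rw [hd] at hj2
  obtain ⟨k2, rfl⟩ := Nat.exists_eq_add_of_le hj2
  have e1 : j + k + (j2 + k2) - (j + k) = j2 + k2 := by omega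
  have e2 : j + k - j = k := by omega
  have e3 : j2 + k2 - j2 = k2 := by omega
  have e4 : j + k + (j2 + k2) = j + k + j2 + k2 := by ring
  have e6 : j + k + j2 + k2 = (j + j2) + (k + k2) := by ring
  have ha' : 0 < 1 - a := by linarith
  have hb' : 0 < 1 - b := by linarith
  obtain ⟨l1, l2, l3, l4⟩ := hL lam a b h0 h1 ha hb
  unfold TBG
  rw [e1, e2, e3, e4]
  have e7 : ((3 : ℝ) ^ (j + j2) / 2 ^ (j + k + j2 + k2)) ^ (4 * lam) =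
      ((3 / 2 : ℝ) ^ (4 * lam)) ^ (j + j2) * ((1 / 2 : ℝ) ^ (4 * lam)) ^ (k + k2) := by
    rw [e6, rpow_letters]
  rw [e7, block_identityG ha0.ne' ha'.ne' hb0.ne' hb'.ne']
  rw [Real.rpow_add_one (by norm_num)] at l3 l4
  have hx : 0 < (3 / 2 : ℝ) ^ (4 * lam) := by positivity
  have hy : 0 < (1 / 2 : ℝ) ^ (4 * lam) := by positivity
  have hpa : 0 < (1 + (1 - 2 * a) ^ 4) / 2 := by positivity
  have hpb : 0 < (1 + (1 - 2 * b) ^ 4) / 2 := by positivity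
  have e5 : Psi lam ^ (j + k + j2 + k2) = Psi lam ^ j * Psi lam ^ k * Psi lam ^ j2 * Psi lam ^ k2 := by
    rw [pow_add, pow_add, pow_add]
  have hPsi : 0 < Psi lam := by unfold Psi; positivity
  rw [e5]
  have g1 : (1 + (1 - 2 * a) ^ 4) / 2 * (3 / 2 : ℝ) ^ (4 * lam) / a ^ 4 ≤ Psi lam := by
    rw [div_le_iff₀ (by positivity)]
    exact l2
  have g2 : (1 + (1 - 2 * a) ^ 4) / 2 * (1 / 2 : ℝ) ^ (4 * lam) / (1 - a) ^ 4 ≤ Psi lam := by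
    rw [div_le_iff₀ (by positivity)]
    exact l1
  have g3 : (1 + (1 - 2 * b) ^ 4) / 2 * ((3 / 2 : ℝ) ^ (4 * lam) * (3 / 2)) / b ^ 4 ≤ Psi lam := by
    rw [div_le_iff₀ (by positivity)]
    exact l4
  have g4 : (1 + (1 - 2 * b) ^ 4) / 2 * ((1 / 2 : ℝ) ^ (4 * lam) * (1 / 2)) / (1 - b) ^ 4 ≤
      Psi lam := by
    rw [div_le_iff₀ (by positivity)]
    exact l3
  apply mul_le_mul _ (pow_le_pow_left₀ (by positivity) g4 _) (by positivity) (by positivity)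
  apply mul_le_mul _ (pow_le_pow_left₀ (by positivity) g3 _) (by positivity) (by positivity)
  exact mul_le_mul (pow_le_pow_left₀ (by positivity) g1 _) (pow_le_pow_left₀ (by positivity) g2 _)
    (by positivity) (by positivity)

/-- the parameters -/
noncomputable def alG (a b : ℝ) (m n : ℕ) (t : Fin m) : ℝ := if (t : ℕ) < n then a else b

lemma prod_alG (a b : ℝ) (m n : ℕ) (hn : n ≤ m) : ∏ t : Fin m, (1 + (1 - 2 * alG a b m n t) ^ 4) / 2 =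
    ((1 + (1 - 2 * a) ^ 4) / 2) ^ n * ((1 + (1 - 2 * b) ^ 4) / 2) ^ (m - n) := by
  have h1 : ∀ t : Fin m, (1 + (1 - 2 * alG a b m n t) ^ 4) / 2 =
      ((1 + (1 - 2 * a) ^ 4) / 2) ^ (if (t : ℕ) < n then 1 else 0) *
      ((1 + (1 - 2 * b) ^ 4) / 2) ^ (if (t : ℕ) < n then 0 else 1) := by
    intro t
    unfold alG
    split_ifs <;> simp
  rw [Finset.prod_congr rfl fun t _ => h1 t, Finset.prod_mul_distrib, Finset.prod_pow_eq_pow_sum,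
    Finset.prod_pow_eq_pow_sum, sum_lt m n hn, sum_ge m n hn]

lemma wt_alG (a b : ℝ) (m n : ℕ) (hn : n ≤ m) (w : Fin m → Bool) : wt (alG a b m n) w =
    a ^ pre w n * (1 - a) ^ (n - pre w n) * b ^ suf w n * (1 - b) ^ (m - n - suf w n) := by
  have h1 : ∀ t : Fin m, (if w t then alG a b m n t else 1 - alG a b m n t) =
      a ^ (if (t : ℕ) < n then (w t).toNat else 0) *
      (1 - a) ^ (if (t : ℕ) < n then 1 - (w t).toNat else 0) *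
      b ^ (if (t : ℕ) < n then 0 else (w t).toNat) *
      (1 - b) ^ (if (t : ℕ) < n then 0 else 1 - (w t).toNat) := by
    intro t
    unfold alG
    cases w t <;> split_ifs <;> simp_all
  have h2 : (∑ t : Fin m, if (t : ℕ) < n then 1 - (w t).toNat else 0) = n - pre w n := by
    have h3 : (∑ t : Fin m, if (t : ℕ) < n then 1 - (w t).toNat else 0) + pre w n = n := by
      unfold pre
      rw [← Finset.sum_add_distrib]
      refine (Finset.sum_congr rfl fun t _ => ?_).trans (sum_lt m n hn)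
      cases w t <;> split_ifs <;> rfl
    omega
  have h4 : (∑ t : Fin m, if (t : ℕ) < n then 0 else 1 - (w t).toNat) = m - n - suf w n := by
    have h3 : (∑ t : Fin m, if (t : ℕ) < n then 0 else 1 - (w t).toNat) + suf w n = m - n := by
      unfold suf
      rw [← Finset.sum_add_distrib]
      refine (Finset.sum_congr rfl fun t _ => ?_).trans (sum_ge m n hn)
      cases w t <;> split_ifs <;> rfl
    omega
  unfold wt
  rw [Finset.prod_congr rfl fun t _ => h1 t, Finset.prod_mul_distrib, Finset.prod_mul_distrib,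
    Finset.prod_mul_distrib, Finset.prod_pow_eq_pow_sum, Finset.prod_pow_eq_pow_sum,
    Finset.prod_pow_eq_pow_sum, Finset.prod_pow_eq_pow_sum, h2, h4]
  rfl

lemma tree_boundG (hT : TreeStatement) (hW : WordsStatement) {a b : ℝ} (ha0 : 0 < a) (ha1 : a < 1)
    (hb0 : 0 < b) (hb1 : b < 1) {m n j j2 : ℕ} (hn : n ≤ m)
    (C : Finset (Fin m → Bool)) (hC : ∀ w ∈ C, pre w n = j ∧ suf w n = j2) (v : ℤ) :
    (#{q ∈ quad C | (2 : ℤ) ^ m ∣ rr q.1 + rr q.2.1 - rr q.2.2.1 - rr q.2.2.2 - v} : ℝ) ≤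
      TBG a b m n j j2 := by
  have ha' : 0 < 1 - a := by linarith
  have hb' : 0 < 1 - b := by linarith
  have hp : (0 : ℝ) < a ^ j * (1 - a) ^ (n - j) * b ^ j2 * (1 - b) ^ (m - n - j2) := by positivity
  have h := hT m (alG a b m n) (fun t => by
      unfold alG
      split_ifs <;> constructor <;> linarith) C (j + j2) _ hp
    (fun w hw => by
      obtain ⟨h1, h2⟩ := hC w hw
      refine ⟨?_, ?_⟩
      · rw [← hW.2.2.2 m n w, h1, h2]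
      · rw [wt_alG a b m n hn, h1, h2]) v
  rw [prod_alG a b m n hn] at h
  unfold TBG
  rw [le_div_iff₀ (by positivity)]
  exact h

/-- **CLASSG** -/
theorem classg (hCS : CsGStatement) (hE : EnergyGStatement) (hL : LetterStatement)
    (hT : TreeStatement) (hW : WordsStatement) : ClassGStatement := by
  classical
  intro c ε lam hε hlam hlam3
  obtain ⟨a, ha⟩ : ∃ a : ℝ, a = (3 : ℝ) ^ lam / (1 + (3 : ℝ) ^ lam) := ⟨_, rfl⟩
  obtain ⟨b, hb⟩ : ∃ b : ℝ, b = (3 : ℝ) ^ (lam + 1 / 4) / (1 + (3 : ℝ) ^ (lam + 1 / 4)) := ⟨_, rfl⟩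
  have ha0 : 0 < a := by rw [ha]; positivity
  have ha1 : a < 1 := by
    rw [ha, div_lt_one (by positivity)]
    linarith
  have hb0 : 0 < b := by rw [hb]; positivity
  have hb1 : b < 1 := by
    rw [hb, div_lt_one (by positivity)]
    linarith
  obtain ⟨m0, hm0⟩ := hE c 8 ε hε
  refine ⟨max m0 1, fun m hm d hd n j' j'' j3 J0 J1 J2 hcl0 hcl1 hcl2 hj3 hJ0 hJ1 hJ2
    h1 h2 h3 h4 g => ?_⟩
  have hmm0 : m0 ≤ m := (le_max_left _ _).trans hm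
  have hm1 : 1 ≤ m := (le_max_right _ _).trans hm
  have hm1R : (1 : ℝ) ≤ m := by exact_mod_cast hm1
  obtain ⟨hn0, hj0, hjj0, hR0⟩ := hcl0
  obtain ⟨hn1, hj1, hjj1, hR1⟩ := hcl1
  obtain ⟨hn2, hj2, hjj2, hR2⟩ := hcl2
  -- the classes
  obtain ⟨Cl0, hCl0⟩ : ∃ Cl : Finset (Fin (m + d) → Bool), Cl = univ.filter (fun w =>
    pre w (n 0) = j' 0 ∧ suf w (n 0) = j'' 0 ∧ rr w ≤ (m + d : ℕ) * (2 ^ n 0 * 3 ^ j'' 0)) :=
    ⟨_, rfl⟩
  obtain ⟨Cl1, hCl1⟩ : ∃ Cl : Finset (Fin m → Bool), Cl = univ.filter (fun w =>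
    pre w (n 1) = j' 1 ∧ suf w (n 1) = j'' 1 ∧ rr w ≤ m * (2 ^ n 1 * 3 ^ j'' 1)) := ⟨_, rfl⟩
  obtain ⟨Cl2, hCl2⟩ : ∃ Cl : Finset (Fin m → Bool), Cl = univ.filter (fun w =>
    pre w (n 2) = j' 2 ∧ suf w (n 2) = j'' 2 ∧ rr w ≤ m * (2 ^ n 2 * 3 ^ j'' 2)) := ⟨_, rfl⟩
  obtain ⟨C3, hC3⟩ : ∃ C3 : Finset (Fin m → Bool), C3 = univ.filter (fun w => ones w = j3) :=
    ⟨_, rfl⟩
  -- the energies of the first three blocks
  have hen : ∀ (k P J e nn jj jj2 : ℕ) (Cl : Finset (Fin k → Bool)),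
      (∀ w ∈ Cl, pre w nn = jj ∧ suf w nn = jj2 ∧ rr w ≤ k * (2 ^ nn * 3 ^ jj2)) →
      m ≤ k → P ≤ 8 * m → J ≤ 8 * m → 2 ^ m ≤ 2 ^ c * 3 ^ J → nn ≤ k → 2 ^ k ≤ 2 ^ nn * 3 ^ jj2 →
      (#{q ∈ quad Cl |
        ((3 ^ e * zeta J P (rr q.1) : ℤ) : ZMod (2 ^ m)) +
          ((3 ^ e * zeta J P (rr q.2.1) : ℤ) : ZMod (2 ^ m)) =
        ((3 ^ e * zeta J P (rr q.2.2.1) : ℤ) : ZMod (2 ^ m)) +
          ((3 ^ e * zeta J P (rr q.2.2.2) : ℤ) : ZMod (2 ^ m))} : ℝ) ≤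
      16 * 2 ^ (ε * m) * ((k * (2 ^ nn * 3 ^ jj2)) / 2 ^ m) * TBG a b k nn jj jj2 := by
    intro k P J e nn jj jj2 Cl hCl hmk hP hJ hJ' hnn hR
    have hk1 : (1 : ℝ) ≤ k := by exact_mod_cast hm1.trans hmk
    have hRR : (2 : ℝ) ^ k ≤ 2 ^ nn * 3 ^ jj2 := by exact_mod_cast hR
    have hmk' : (2 : ℝ) ^ m ≤ 2 ^ k := pow_le_pow_right₀ (by norm_num) hmk
    have h := hm0 m hmm0 P J k hP hJ hJ' Cl (k * (2 ^ nn * 3 ^ jj2)) (TBG a b k nn jj jj2)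
      (by nlinarith [show (0 : ℝ) < 2 ^ m by positivity])
      (fun w hw => by
        have := (hCl w hw).2.2
        exact_mod_cast this)
      (fun v => by
        refine le_trans (Nat.cast_le.mpr (Finset.card_le_card ?_)) (tree_boundG hT hW ha0 ha1 hb0 hb1
          hnn Cl (fun w hw => ⟨(hCl w hw).1, (hCl w hw).2.1⟩) v)
        intro q hq
        rw [mem_filter] at hq ⊢
        refine ⟨hq.1, ?_⟩
        rw [hq.2, sub_self]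
        exact dvd_zero _)
    refine le_trans (Nat.cast_le.mpr (Finset.card_le_card ?_)) h
    intro q hq
    rw [mem_filter] at hq ⊢
    exact ⟨hq.1, dvd_of_eq e _ _ _ _ hq.2⟩
  have hen3 : (#{q ∈ quad C3 |
        ((rr q.1 : ℤ) : ZMod (2 ^ m)) + ((rr q.2.1 : ℤ) : ZMod (2 ^ m)) =
        ((rr q.2.2.1 : ℤ) : ZMod (2 ^ m)) + ((rr q.2.2.2 : ℤ) : ZMod (2 ^ m))} : ℝ) ≤
      TBG a b m m j3 0 := by
    have hsuf : ∀ w : Fin m → Bool, suf w m = 0 := by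
      intro w
      unfold suf
      apply Finset.sum_eq_zero
      intro t _
      rw [if_pos t.2]
    refine le_trans (Nat.cast_le.mpr (Finset.card_le_card ?_)) (tree_boundG hT hW ha0 ha1 hb0 hb1
      (le_refl m) C3 (fun w hw => by
        rw [hC3, mem_filter] at hw
        refine ⟨?_, hsuf w⟩
        have := hW.2.2.2 m m w
        rw [hsuf, add_zero, hw.2] at this
        exact this) 0)
    intro q hq
    rw [mem_filter] at hq ⊢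
    refine ⟨hq.1, ?_⟩
    have h5 := dvd_of_eq 0 (rr q.1) (rr q.2.1) (rr q.2.2.1) (rr q.2.2.2) (by
      simpa using hq.2)
    rw [sub_zero]
    exact h5
  -- Cauchy-Schwarz
  have hcs := hCS (Fin (m + d) → Bool) (Fin m → Bool) (Fin m → Bool) (Fin m → Bool) (ZMod (2 ^ m))
    Cl0 Cl1 Cl2 C3
    (fun w => ((3 ^ (j3 + (J2 - J0)) * zeta J0 (3 * m + d) (rr w) : ℤ) : ZMod (2 ^ m)))
    (fun w => ((3 ^ (j3 + (J2 - J1)) * zeta J1 (2 * m) (rr w) : ℤ) : ZMod (2 ^ m)))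
    (fun w => ((3 ^ j3 * zeta J2 m (rr w) : ℤ) : ZMod (2 ^ m)))
    (fun w => ((rr w : ℤ) : ZMod (2 ^ m))) ((g : ℤ) : ZMod (2 ^ m))
  have two_pow_le : ∀ e : ℕ, 1 ≤ e → (2 : ℕ) ^ m ≤ 2 ^ (e * m) := fun e he =>
    Nat.pow_le_pow_right (by norm_num) (by nlinarith)
  have hE0 := hen (m + d) (3 * m + d) J0 (j3 + (J2 - J0)) (n 0) (j' 0) (j'' 0) Cl0
    (fun w hw => by rw [hCl0, mem_filter] at hw; exact hw.2) (by omega) (by omega) (by omega) h1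
    hn0 hR0
  have hE1 := hen m (2 * m) J1 (j3 + (J2 - J1)) (n 1) (j' 1) (j'' 1) Cl1
    (fun w hw => by rw [hCl1, mem_filter] at hw; exact hw.2) (by omega) (by omega) (by omega)
    ((two_pow_le 2 (by norm_num)).trans h2) hn1 hR1
  have hE2 := hen m m J2 j3 (n 2) (j' 2) (j'' 2) Cl2
    (fun w hw => by rw [hCl2, mem_filter] at hw; exact hw.2) (by omega) (by omega) (by omega)
    ((two_pow_le 3 (by norm_num)).trans h3) hn2 hR2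
  obtain ⟨N, hN⟩ : ∃ N : ℕ, N = #{q : (Fin (m + d) → Bool) × (Fin m → Bool) × (Fin m → Bool) ×
      (Fin m → Bool) |
        (pre q.1 (n 0) = j' 0 ∧ suf q.1 (n 0) = j'' 0 ∧
          rr q.1 ≤ (m + d : ℕ) * (2 ^ n 0 * 3 ^ j'' 0)) ∧
        (pre q.2.1 (n 1) = j' 1 ∧ suf q.2.1 (n 1) = j'' 1 ∧
          rr q.2.1 ≤ m * (2 ^ n 1 * 3 ^ j'' 1)) ∧
        (pre q.2.2.1 (n 2) = j' 2 ∧ suf q.2.2.1 (n 2) = j'' 2 ∧
          rr q.2.2.1 ≤ m * (2 ^ n 2 * 3 ^ j'' 2)) ∧ ones q.2.2.2 = j3 ∧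
        (2 : ℤ) ^ m ∣ 3 ^ (j3 + (J2 - J0)) * zeta J0 (3 * m + d) (rr q.1)
          + 3 ^ (j3 + (J2 - J1)) * zeta J1 (2 * m) (rr q.2.1)
          + 3 ^ j3 * zeta J2 m (rr q.2.2.1) + rr q.2.2.2 - g} := ⟨_, rfl⟩
  rw [← hN]
  obtain ⟨N', hN'⟩ : ∃ N' : ℕ, N' = #{q ∈ Cl0 ×ˢ Cl1 ×ˢ Cl2 ×ˢ C3 |
      ((3 ^ (j3 + (J2 - J0)) * zeta J0 (3 * m + d) (rr q.1) : ℤ) : ZMod (2 ^ m)) +
      ((3 ^ (j3 + (J2 - J1)) * zeta J1 (2 * m) (rr q.2.1) : ℤ) : ZMod (2 ^ m)) +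
      ((3 ^ j3 * zeta J2 m (rr q.2.2.1) : ℤ) : ZMod (2 ^ m)) +
      ((rr q.2.2.2 : ℤ) : ZMod (2 ^ m)) = ((g : ℤ) : ZMod (2 ^ m))} := ⟨_, rfl⟩
  have hNN' : N ≤ N' := by
    rw [hN, hN']
    apply Finset.card_le_card
    intro q hq
    rw [mem_filter] at hq ⊢
    obtain ⟨-, hq0, hq1, hq2, hq3, hq4⟩ := hq
    refine ⟨?_, ?_⟩
    · rw [mem_product, mem_product, mem_product, hCl0, hCl1, hCl2, hC3, mem_filter, mem_filter,
        mem_filter, mem_filter]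
      exact ⟨⟨mem_univ _, hq0⟩, ⟨mem_univ _, hq1⟩, ⟨mem_univ _, hq2⟩, ⟨mem_univ _, hq3⟩⟩
    · rw [← Int.cast_add, ← Int.cast_add, ← Int.cast_add, ← sub_eq_zero, ← Int.cast_sub,
        ZMod.intCast_zmod_eq_zero_iff_dvd]
      push_cast
      exact hq4
  obtain ⟨K, hK⟩ : ∃ K : ℝ, K = 100 * m * 2 ^ (ε * m) := ⟨_, rfl⟩
  have hp : (0 : ℝ) < 2 ^ (ε * m) := by positivity
  have hK0 : 0 ≤ K := by rw [hK]; positivity
  obtain ⟨Y0, hY0⟩ : ∃ Y : ℝ, Y = (2 ^ n 0 * 3 ^ j'' 0 / 2 ^ (m + d)) *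
    TBG a b (m + d) (n 0) (j' 0) (j'' 0) := ⟨_, rfl⟩
  obtain ⟨Y1, hY1⟩ : ∃ Y : ℝ, Y = (2 ^ n 1 * 3 ^ j'' 1 / 2 ^ m) *
    TBG a b m (n 1) (j' 1) (j'' 1) := ⟨_, rfl⟩
  obtain ⟨Y2, hY2⟩ : ∃ Y : ℝ, Y = (2 ^ n 2 * 3 ^ j'' 2 / 2 ^ m) *
    TBG a b m (n 2) (j' 2) (j'' 2) := ⟨_, rfl⟩
  have hT0 := TBG_nonneg a b (m + d) (n 0) (j' 0) (j'' 0)
  have hT1 := TBG_nonneg a b m (n 1) (j' 1) (j'' 1)
  have hT2 := TBG_nonneg a b m (n 2) (j' 2) (j'' 2)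
  have hT3 := TBG_nonneg a b m m j3 0
  have hY00 : 0 ≤ Y0 := by rw [hY0]; positivity
  have hY10 : 0 ≤ Y1 := by rw [hY1]; positivity
  have hY20 : 0 ≤ Y2 := by rw [hY2]; positivity
  have hE0' : 16 * 2 ^ (ε * m) * ((((m + d : ℕ) : ℝ) * (2 ^ n 0 * 3 ^ j'' 0)) / 2 ^ m) *
      TBG a b (m + d) (n 0) (j' 0) (j'' 0) ≤ K * (2 ^ d * Y0) := by
    have e1 : 16 * 2 ^ (ε * m) * ((((m + d : ℕ) : ℝ) * (2 ^ n 0 * 3 ^ j'' 0)) / 2 ^ m) *
      TBG a b (m + d) (n 0) (j' 0) (j'' 0) = 16 * ((m + d : ℕ) : ℝ) * 2 ^ (ε * m) *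
        (2 ^ d * Y0) := by
      rw [hY0, pow_add]
      field_simp
    rw [e1, hK]
    have e2 : ((m + d : ℕ) : ℝ) ≤ 6 * m := by
      have : m + d ≤ 6 * m := by omega
      exact_mod_cast this
    have e3 : 16 * ((m + d : ℕ) : ℝ) ≤ 100 * m := by linarith
    apply mul_le_mul_of_nonneg_right _ (by positivity)
    exact mul_le_mul_of_nonneg_right e3 hp.le
  have hE1' : 16 * 2 ^ (ε * m) * (((m : ℝ) * (2 ^ n 1 * 3 ^ j'' 1)) / 2 ^ m) *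
      TBG a b m (n 1) (j' 1) (j'' 1) ≤ K * Y1 := by
    have e1 : 16 * 2 ^ (ε * m) * (((m : ℝ) * (2 ^ n 1 * 3 ^ j'' 1)) / 2 ^ m) *
      TBG a b m (n 1) (j' 1) (j'' 1) = 16 * (m : ℝ) * 2 ^ (ε * m) * Y1 := by
      rw [hY1]
      field_simp
    rw [e1, hK]
    have e3 : 16 * (m : ℝ) ≤ 100 * m := by linarith
    apply mul_le_mul_of_nonneg_right _ (by positivity)
    exact mul_le_mul_of_nonneg_right e3 hp.le
  have hE2' : 16 * 2 ^ (ε * m) * (((m : ℝ) * (2 ^ n 2 * 3 ^ j'' 2)) / 2 ^ m) *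
      TBG a b m (n 2) (j' 2) (j'' 2) ≤ K * Y2 := by
    have e1 : 16 * 2 ^ (ε * m) * (((m : ℝ) * (2 ^ n 2 * 3 ^ j'' 2)) / 2 ^ m) *
      TBG a b m (n 2) (j' 2) (j'' 2) = 16 * (m : ℝ) * 2 ^ (ε * m) * Y2 := by
      rw [hY2]
      field_simp
    rw [e1, hK]
    have e3 : 16 * (m : ℝ) ≤ 100 * m := by linarith
    apply mul_le_mul_of_nonneg_right _ (by positivity)
    exact mul_le_mul_of_nonneg_right e3 hp.le
  have hcs' : (N' : ℝ) ^ 4 ≤ (K * (2 ^ d * Y0)) * (K * Y1) * (K * Y2) * TBG a b m m j3 0 := by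
    have h6 := (Nat.cast_le (α := ℝ)).mpr hcs
    rw [Nat.cast_pow, Nat.cast_mul, Nat.cast_mul, Nat.cast_mul] at h6
    rw [hN']
    refine h6.trans ?_
    have hE0'' := hE0.trans hE0'
    have hE1'' := hE1.trans hE1'
    have hE2'' := hE2.trans hE2'
    refine mul_le_mul (mul_le_mul (mul_le_mul hE0'' hE1'' (Nat.cast_nonneg _) ?_) hE2''
      (Nat.cast_nonneg _) ?_) hen3 (Nat.cast_nonneg _) ?_ <;> positivity
  -- bookkeeping
  have hPsi : 0 < Psi lam := by unfold Psi; positivity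
  have hB0 : Y0 * ((3 : ℝ) ^ (j' 0 + j'' 0) / 2 ^ (m + d)) ^ (4 * lam) ≤ Psi lam ^ (m + d) := by
    rw [hY0]
    exact block_leG hL hlam hlam3 ha hb ha0 ha1 hb0 hb1 hn0 hj0 hjj0
  have hB1 : Y1 * ((3 : ℝ) ^ (j' 1 + j'' 1) / 2 ^ m) ^ (4 * lam) ≤ Psi lam ^ m := by
    rw [hY1]
    exact block_leG hL hlam hlam3 ha hb ha0 ha1 hb0 hb1 hn1 hj1 hjj1
  have hB2 : Y2 * ((3 : ℝ) ^ (j' 2 + j'' 2) / 2 ^ m) ^ (4 * lam) ≤ Psi lam ^ m := by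
    rw [hY2]
    exact block_leG hL hlam hlam3 ha hb ha0 ha1 hb0 hb1 hn2 hj2 hjj2
  have hB3 : TBG a b m m j3 0 * ((3 : ℝ) ^ j3 / 2 ^ m) ^ (4 * lam) ≤ Psi lam ^ m := by
    have h5 := block_leG hL hlam hlam3 ha hb ha0 ha1 hb0 hb1 (le_refl m) hj3 (Nat.zero_le (m - m))
    rw [pow_zero, mul_one, div_self (by positivity), one_mul, add_zero] at h5
    exact h5
  have hD : (1 : ℝ) ≤ 2 ^ (4 * c * lam) * 2 ^ (4 * lam * d) *
      (((3 : ℝ) ^ (j' 0 + j'' 0) / 2 ^ (m + d)) ^ (4 * lam) *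
      ((3 : ℝ) ^ (j' 1 + j'' 1) / 2 ^ m) ^ (4 * lam) *
      ((3 : ℝ) ^ (j' 2 + j'' 2) / 2 ^ m) ^ (4 * lam) * ((3 : ℝ) ^ j3 / 2 ^ m) ^ (4 * lam)) := by
    have h5 : (2 : ℝ) ^ (4 * c * lam) * 2 ^ (4 * lam * d) *
      (((3 : ℝ) ^ (j' 0 + j'' 0) / 2 ^ (m + d)) ^ (4 * lam) *
      ((3 : ℝ) ^ (j' 1 + j'' 1) / 2 ^ m) ^ (4 * lam) *
      ((3 : ℝ) ^ (j' 2 + j'' 2) / 2 ^ m) ^ (4 * lam) * ((3 : ℝ) ^ j3 / 2 ^ m) ^ (4 * lam)) =
      (2 ^ c * 3 ^ (J2 + j3) / 2 ^ (4 * m)) ^ (4 * lam) := by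
      have h8 : (2 : ℝ) ^ (4 * c * lam) = (2 ^ c) ^ (4 * lam) := by
        rw [← Real.rpow_natCast, ← Real.rpow_mul (by norm_num)]
        congr 1
        ring
      have h9 : (2 : ℝ) ^ (4 * lam * d) = (2 ^ d) ^ (4 * lam) := by
        rw [← Real.rpow_natCast, ← Real.rpow_mul (by norm_num)]
        congr 1
        ring
      rw [h8, h9, ← Real.mul_rpow (by positivity) (by positivity),
        ← Real.mul_rpow (by positivity) (by positivity),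
        ← Real.mul_rpow (by positivity) (by positivity),
        ← Real.mul_rpow (by positivity) (by positivity),
        ← Real.mul_rpow (by positivity) (by positivity)]
      congr 1
      have h6 : (3 : ℝ) ^ (J2 + j3) = 3 ^ (j' 0 + j'' 0) * 3 ^ (j' 1 + j'' 1) *
          3 ^ (j' 2 + j'' 2) * 3 ^ j3 := by
        rw [hJ2, hJ1, hJ0, pow_add, pow_add, pow_add]
      have h7 : (2 : ℝ) ^ (4 * m) = 2 ^ m * 2 ^ m * 2 ^ m * 2 ^ m := by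
        rw [← pow_add, ← pow_add, ← pow_add]
        congr 1
        ring
      rw [h6, h7, pow_add 2 m d]
      field_simp
    rw [h5]
    apply Real.one_le_rpow _ (by linarith)
    rw [le_div_iff₀ (by positivity), one_mul]
    exact_mod_cast h4
  obtain ⟨z0, hz0⟩ : ∃ z : ℝ, z = ((3 : ℝ) ^ (j' 0 + j'' 0) / 2 ^ (m + d)) ^ (4 * lam) := ⟨_, rfl⟩
  obtain ⟨z1, hz1⟩ : ∃ z : ℝ, z = ((3 : ℝ) ^ (j' 1 + j'' 1) / 2 ^ m) ^ (4 * lam) := ⟨_, rfl⟩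
  obtain ⟨z2, hz2⟩ : ∃ z : ℝ, z = ((3 : ℝ) ^ (j' 2 + j'' 2) / 2 ^ m) ^ (4 * lam) := ⟨_, rfl⟩
  obtain ⟨z3, hz3⟩ : ∃ z : ℝ, z = ((3 : ℝ) ^ j3 / 2 ^ m) ^ (4 * lam) := ⟨_, rfl⟩
  rw [← hz0, ← hz1, ← hz2, ← hz3] at hD
  rw [← hz0] at hB0
  rw [← hz1] at hB1
  rw [← hz2] at hB2
  rw [← hz3] at hB3
  have z0' : 0 ≤ z0 := by rw [hz0]; positivity
  have z1' : 0 ≤ z1 := by rw [hz1]; positivity
  have z2' : 0 ≤ z2 := by rw [hz2]; positivity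
  have z3' : 0 ≤ z3 := by rw [hz3]; positivity
  have h5 : (N : ℝ) ^ 4 ≤ (N' : ℝ) ^ 4 :=
    pow_le_pow_left₀ (Nat.cast_nonneg _) (Nat.cast_le.mpr hNN') 4
  have hsplit : (2 : ℝ) ^ ((1 + 4 * lam) * d) = 2 ^ d * 2 ^ (4 * lam * d) := by
    rw [← Real.rpow_natCast, ← Real.rpow_add (by norm_num)]
    congr 1
    ring
  have hps : Psi lam ^ (4 * m + d) = Psi lam ^ (m + d) * Psi lam ^ m * Psi lam ^ m * Psi lam ^ m := by
    rw [← pow_add, ← pow_add, ← pow_add]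
    congr 1
    ring
  calc (N : ℝ) ^ 4 ≤ (K * (2 ^ d * Y0)) * (K * Y1) * (K * Y2) * TBG a b m m j3 0 := h5.trans hcs'
    _ = (K ^ 3 * 2 ^ d * (Y0 * Y1 * Y2 * TBG a b m m j3 0)) * 1 := by ring
    _ ≤ (K ^ 3 * 2 ^ d * (Y0 * Y1 * Y2 * TBG a b m m j3 0)) *
        (2 ^ (4 * c * lam) * 2 ^ (4 * lam * d) * (z0 * z1 * z2 * z3)) :=
        mul_le_mul_of_nonneg_left hD (by positivity)
    _ = K ^ 3 * 2 ^ (4 * c * lam) * (2 ^ d * 2 ^ (4 * lam * d)) *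
        ((Y0 * z0) * (Y1 * z1) * (Y2 * z2) * (TBG a b m m j3 0 * z3)) := by ring
    _ ≤ K ^ 3 * 2 ^ (4 * c * lam) * (2 ^ d * 2 ^ (4 * lam * d)) *
        (Psi lam ^ (m + d) * Psi lam ^ m * Psi lam ^ m * Psi lam ^ m) := by
        apply mul_le_mul_of_nonneg_left _ (by positivity)
        refine mul_le_mul (mul_le_mul (mul_le_mul hB0 hB1 (by positivity) (by positivity)) hB2
          (by positivity) (by positivity)) hB3 (by positivity) (by positivity)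
    _ = (100 * m * 2 ^ (ε * m)) ^ 3 * 2 ^ (4 * c * lam) * 2 ^ ((1 + 4 * lam) * d) *
        Psi lam ^ (4 * m + d) := by
        rw [hK, hsplit, hps]

end Pool.Agent.Lib.MP_0a5adf_nt.EXR.H72
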