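import Pool.Agent.Lib.MP_0a5adf_nt.EXR.Base
import Pool.Agent.Lib.MP_0a5adf_nt.EXP.H72.Energy

/-!
# ENERGYG: the energy bound for blocks of arbitrary length
-/

set_option autoImplicit false

namespace Pool.Agent.Lib.MP_0a5adf_nt.EXR.H72

open Finset Pool.Agent.Lib.MP_0a5adf_nt.EXP Pool.Agent.Lib.MP_0a5adf_nt.EXR
open Pool.Agent.Lib.MP_0a5adf_nt.EXP.H72 (card_spaced rr_nonneg)

/-- **ENERGYG** -/
theorem energyg (hR : RidoutGStatement) (hS : SolStatement) : EnergyGStatement := by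
  classical
  intro c D ε hε
  obtain ⟨m0, hm0⟩ := hR c D ε hε
  refine ⟨m0, fun m hm Q J k hQD hJ hJ2 C R T hmR hRw hT => ?_⟩
  obtain ⟨A, hA⟩ : ∃ A : Finset ((Fin k → Bool) × (Fin k → Bool) × (Fin k → Bool) × (Fin k → Bool)),
    A = (quad C).filter (fun q => (2 : ℤ) ^ m ∣ zeta J Q (rr q.1) + zeta J Q (rr q.2.1) -
      zeta J Q (rr q.2.2.1) - zeta J Q (rr q.2.2.2)) := ⟨_, rfl⟩
  obtain ⟨vv, hvv⟩ : ∃ vv : ((Fin k → Bool) × (Fin k → Bool) × (Fin k → Bool) × (Fin k → Bool)) → ℤ,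
    vv = fun q => rr q.1 + rr q.2.1 - rr q.2.2.1 - rr q.2.2.2 := ⟨_, rfl⟩
  obtain ⟨uu, huu⟩ : ∃ uu : ((Fin k → Bool) × (Fin k → Bool) × (Fin k → Bool) × (Fin k → Bool)) → ℤ,
    uu = fun q => sol J Q (rr q.1) + sol J Q (rr q.2.1) - sol J Q (rr q.2.2.1) -
      sol J Q (rr q.2.2.2) := ⟨_, rfl⟩
  have hdiv : ∀ q ∈ A, (2 : ℤ) ^ (Q + m) ∣ 3 ^ J * uu q + vv q := by
    intro q hq
    rw [hA, Finset.mem_filter] at hq
    obtain ⟨k', hk⟩ := hq.2
    refine ⟨k', ?_⟩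
    have h1 := (hS J Q (rr q.1)).2.2
    have h2 := (hS J Q (rr q.2.1)).2.2
    have h3 := (hS J Q (rr q.2.2.1)).2.2
    have h4 := (hS J Q (rr q.2.2.2)).2.2
    rw [huu, hvv]
    simp only
    calc 3 ^ J * (sol J Q (rr q.1) + sol J Q (rr q.2.1) - sol J Q (rr q.2.2.1) -
          sol J Q (rr q.2.2.2)) + (rr q.1 + rr q.2.1 - rr q.2.2.1 - rr q.2.2.2) =
        (3 ^ J * sol J Q (rr q.1) + rr q.1) + (3 ^ J * sol J Q (rr q.2.1) + rr q.2.1) -
          (3 ^ J * sol J Q (rr q.2.2.1) + rr q.2.2.1) -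
          (3 ^ J * sol J Q (rr q.2.2.2) + rr q.2.2.2) := by ring
      _ = 2 ^ Q * (zeta J Q (rr q.1) + zeta J Q (rr q.2.1) - zeta J Q (rr q.2.2.1) -
          zeta J Q (rr q.2.2.2)) := by rw [← h1, ← h2, ← h3, ← h4]; ring
      _ = 2 ^ (Q + m) * k' := by rw [hk, pow_add]; ring
  have hub : ∀ q, |uu q| ≤ 2 * 2 ^ Q := by
    intro q
    obtain ⟨h1, h1', -⟩ := hS J Q (rr q.1)
    obtain ⟨h2, h2', -⟩ := hS J Q (rr q.2.1)
    obtain ⟨h3, h3', -⟩ := hS J Q (rr q.2.2.1)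
    obtain ⟨h4, h4', -⟩ := hS J Q (rr q.2.2.2)
    rw [huu, abs_le]
    constructor <;> simp only <;> linarith
  have hvb : ∀ q ∈ A, -(2 * R) ≤ (vv q : ℝ) ∧ (vv q : ℝ) ≤ 2 * R := by
    intro q hq
    rw [hA, Finset.mem_filter] at hq
    have hq1 := hq.1
    unfold quad at hq1
    rw [mem_product, mem_product, mem_product] at hq1
    have h1 := hRw _ hq1.1
    have h2 := hRw _ hq1.2.1
    have h3 := hRw _ hq1.2.2.1
    have h4 := hRw _ hq1.2.2.2
    have h1' : (0 : ℝ) ≤ rr q.1 := by exact_mod_cast rr_nonneg q.1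
    have h2' : (0 : ℝ) ≤ rr q.2.1 := by exact_mod_cast rr_nonneg q.2.1
    have h3' : (0 : ℝ) ≤ rr q.2.2.1 := by exact_mod_cast rr_nonneg q.2.2.1
    have h4' : (0 : ℝ) ≤ rr q.2.2.2 := by exact_mod_cast rr_nonneg q.2.2.2
    rw [hvv]
    push_cast
    constructor <;> linarith
  obtain ⟨L, hL⟩ : ∃ L : ℝ, L = (2 : ℝ) ^ ((1 - ε) * m) := ⟨_, rfl⟩
  have hL0 : 0 < L := by rw [hL]; positivity
  have h2m : (0 : ℝ) < 2 ^ m := by positivity
  have hR0 : 0 < R := lt_of_lt_of_le h2m hmR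
  have hV := card_spaced (V := A.image vv) (a := -(2 * R)) (b := 2 * R) hL0
    (by
      intro v hv
      rw [mem_image] at hv
      obtain ⟨q, hq, rfl⟩ := hv
      exact hvb q hq)
    (by
      intro v hv v' hv' hne
      rw [mem_image] at hv hv'
      obtain ⟨q, hq, rfl⟩ := hv
      obtain ⟨q', hq', rfl⟩ := hv'
      have h := hm0 m hm Q J hQD hJ hJ2 (uu q - uu q') (vv q - vv q')
        (by
          have h1 := hub q
          have h2 := hub q'
          have h3 : |uu q - uu q'| ≤ |uu q| + |uu q'| := abs_sub _ _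
          have h4 : (2 : ℤ) ^ (Q + 2) = 4 * 2 ^ Q := by rw [pow_add]; ring
          rw [h4]
          linarith)
        (sub_ne_zero.mpr hne)
        (by
          have h1 := dvd_sub (hdiv q hq) (hdiv q' hq')
          have h2 : 3 ^ J * uu q + vv q - (3 ^ J * uu q' + vv q') =
            3 ^ J * (uu q - uu q') + (vv q - vv q') := by ring
          rwa [h2] at h1)
      rw [hL]
      push_cast at h
      exact h)
    (by linarith)
  have hT0 : 0 ≤ T := le_trans (Nat.cast_nonneg _) (hT 0)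
  have hfib : (A.card : ℝ) ≤ (A.image vv).card * T := by
    have h1 : A.card = ∑ v ∈ A.image vv, (A.filter (fun q => vv q = v)).card :=
      Finset.card_eq_sum_card_fiberwise fun q hq => Finset.mem_image_of_mem _ hq
    rw [h1]
    push_cast
    rw [← nsmul_eq_mul]
    apply Finset.sum_le_card_nsmul
    intro v _
    refine le_trans ?_ (hT v)
    exact_mod_cast Finset.card_le_card (by
      intro q hq
      rw [mem_filter] at hq ⊢
      refine ⟨?_, ?_⟩
      · have := hq.1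
        rw [hA, mem_filter] at this
        exact this.1
      · have := hq.2
        rw [hvv] at this
        exact this)
  have hLe : L * 2 ^ (ε * m) = 2 ^ m := by
    rw [hL, ← Real.rpow_add (by norm_num), ← Real.rpow_natCast]
    congr 1
    ring
  have hεm : (1 : ℝ) ≤ 2 ^ (ε * m) := Real.one_le_rpow (by norm_num) (by positivity)
  have hfin : 1 + (2 * R - -(2 * R)) / L ≤ 16 * 2 ^ (ε * m) * (R / 2 ^ m) := by
    have h1 : (2 * R - -(2 * R)) / L = 4 * 2 ^ (ε * m) * (R / 2 ^ m) := by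
      rw [← hLe]
      have : (0 : ℝ) < 2 ^ (ε * m) := by positivity
      field_simp
      ring
    rw [h1]
    have h2 : 1 ≤ R / 2 ^ m := by rwa [le_div_iff₀ h2m, one_mul]
    nlinarith
  have hAeq : (#{q ∈ quad C | (2 : ℤ) ^ m ∣
        zeta J Q (rr q.1) + zeta J Q (rr q.2.1)
          - zeta J Q (rr q.2.2.1) - zeta J Q (rr q.2.2.2)} : ℝ) = A.card := by
    rw [hA]
  rw [hAeq]
  calc (A.card : ℝ) ≤ (A.image vv).card * T := hfib
    _ ≤ (1 + (2 * R - -(2 * R)) / L) * T := mul_le_mul_of_nonneg_right hV hT0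
    _ ≤ _ := mul_le_mul_of_nonneg_right hfin hT0

end Pool.Agent.Lib.MP_0a5adf_nt.EXR.H72
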